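import Pool.Agent.Run7.h761.KF.Defs

/-!
# Kalai's flag conjecture: all pieces

Every `S_XXX` is a closed proposition with its complete proof in the comment. A piece is a theorem
`t_XXX : S_XXX` (or `t_XXX (h1 : S_YYY) ... : S_XXX`, only with the hypotheses named in the
comment) in `Pool/Agent/Run7/h761/KF/XXX.lean`, namespace `Pool.Agent.Run7.h761.KF`, importing
this file (put auxiliary lemmas in a sub-namespace `XXX`). Table `h761_pieces`.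

Overall proof. For `a > 0` the map `h_a` of the disc has on the upper half circle
`1 - Re h = (1-λ) e^(aθ)` and on the lower one `1 + Re h = (1-λ) e^(a(θ-π))`, `λ = tanh (πa/2)`.
The Monge-Ampere proof of the symmetric Mahler conjecture (`H712R2/MA`) run with this lens gives
`∫_{λK} |(K-x)°| dx ≥ (2πa)^n / n!` (`S_FUNK`, equality for the cube). For `a = R/π → ∞` the left
side is at most `(number of flags)/(n!)² · R^n (1+o(1))` (`S_VOL`), so there are at least `2^n n!`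
flags.
-/

set_option autoImplicit false

noncomputable section

open MeasureTheory Filter Topology
open scoped BigOperators Matrix ENNReal

namespace Pool.Agent.Run7.h761.KF

open H712MA (Lens E2 pk gf gd af VV DS dt Spans Cut)

/-! ## A. One variable (`n = 2j+1` odd) -/

/-- D1. Series. No hypotheses. Model: `Pool/Agent/H712R2/MA/H1.lean` (`deriv_S0`, `diff_S1`,
`odd_sq`, `norm_S0`), where the series with `a = 0` are treated; `|n + ia| ≥ n ≥ 1`.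
Last clause: `ga a z = (4a/π) Σ z^n/(n+ia)`, so `z G' + iaG = (4a/π) Σ z^n = (4a/π) z/(1-z²)`
(differentiate the series of `hd` termwise, or multiply `hd` by `z`). -/
def S_D1 : Prop := ∀ a : ℝ, 0 < a →
  (∀ z : ℂ, ‖z‖ < 1 → HasDerivAt (ha a) (hd a z) z) ∧
  DifferentiableOn ℂ (hd a) (Metric.ball 0 1) ∧
  (∀ z : ℂ, ha a (-z) = - ha a z) ∧ (∀ z : ℂ, hd a (-z) = hd a z) ∧
  (∀ z : ℂ, ‖z‖ < 1 → ‖ha a z‖ ≤ Real.pi * a / 2 * ‖z‖) ∧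
  hd a 0 = ((4 * a / Real.pi : ℝ) : ℂ) / (1 + a * Complex.I) ∧
  DifferentiableOn ℂ (ga a) (Metric.ball 0 1) ∧
  (∀ z : ℂ, ‖z‖ < 1 → z * deriv (ga a) z =
    ((4 * a / Real.pi : ℝ) : ℂ) * (z / (1 - z ^ 2)) - (a * Complex.I) * ga a z)

/-- ARG (hypothesis `S_D1`). Proof: `Re ((1+z)/(1-z)) > 0` in the disc, so `|arg| < π/2` and `Log`
is holomorphic there. Put `E = G - a (2/π) Log((1+z)/(1-z)) + i a h`. Then `E(0) = 0` and
`z E' = z G' - (4a/π) z/(1-z²) + i a z h' = 0` by the last clause of `S_D1` (`G = z h'`), so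
`E' = 0` for `z ≠ 0`, hence on the disc by continuity, `E = 0`; take imaginary parts. The last two
clauses follow from the first two. -/
def S_ARG : Prop := ∀ a : ℝ, 0 < a → ∀ z : ℂ, ‖z‖ < 1 →
  (ga a z).im = a * (2 / Real.pi * Complex.arg ((1 + z) / (1 - z)) - (ha a z).re) ∧
  |Complex.arg ((1 + z) / (1 - z))| < Real.pi / 2 ∧
  (ga a z).im < a * (1 - (ha a z).re) ∧ -(a * (1 + (ha a z).re)) < (ga a z).im

/-- RE (hypotheses `S_D1`, `S_ARG`). Proof: `z = r e^(iθ)`, `g(θ) = Re h(r e^(iθ))`. Then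
`g' = Re (i z h') = - Im G`. By `S_ARG` `-Im G < a (1 + g)`, so `(1+g)' < a (1+g)` and
`θ ↦ e^(-aθ)(1+g(θ))` is strictly decreasing; `g(θ+π) = -g(θ)` since `h` is odd. So
`e^(-aπ)(1-g(θ)) < 1+g(θ)`, i.e. `g(θ) > -(1-e^(-aπ))/(1+e^(-aπ)) = -tanh(πa/2)`. Replace `z` by
`-z` for the other bound. -/
def S_RE : Prop := ∀ a : ℝ, 0 < a → ∀ z : ℂ, ‖z‖ < 1 → |(ha a z).re| < lam a

/-- LOWI (hypothesis `S_D1` if useful). Proof, `w = z²`: `(1+v)/(1-v) = 1 + 2 Σ_{k≥1} v^k` (uniformly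
convergent in `τ` for `v = w e^(2iτ)`) and
`∫_0^π sin τ e^(-(a-2ik)τ) dτ = (1+e^(-aπ))/(1+(a-2ik)²)`, so the right side is the real part of
`(4a/π) (1/(1+a²) + 2 Σ_{k≥1} w^k/(1+(a-2ik)²))` (the integrand is `Re` of
`sin τ e^(-aτ) (1+v)/(1-v)`), while
`(1-z²) Σ_j z^(2j)/(2j+1+ia) = 1/(1+ia) - 2 Σ_{k≥1} w^k/((2k+1+ia)(2k-1+ia))`,
`(2k+1+ia)(2k-1+ia) = (2k+ia)²-1 = -(1+(a-2ik)²)` and `Re 1/(1+ia) = 1/(1+a²)`. -/
def S_LOWI : Prop := ∀ a : ℝ, 0 < a → ∀ z : ℂ, ‖z‖ < 1 →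
  ((1 - z ^ 2) * hd a z).re = 4 * a / Real.pi * (1 + Real.exp (-(a * Real.pi)))⁻¹ *
    ∫ τ in (0 : ℝ)..Real.pi, Real.sin τ * Real.exp (-(a * τ)) *
      ((1 + z ^ 2 * Complex.exp (2 * τ * Complex.I)) /
        (1 - z ^ 2 * Complex.exp (2 * τ * Complex.I))).re

/-- LOWP (no hypotheses). Proof: with `p(τ) = Re((1+w e^(2iτ))/(1-w e^(2iτ)))`
`= (1-|w|²)/|1-w e^(2iτ)|² > 0`, `∫_0^π p = π` and `∫_0^π e^(-2iτ) p(τ) dτ = π w` (Fourier series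
`p = 1 + Σ_{k≥1} (w^k e^(2ikτ) + conj)`), and `sin τ = |1-e^(-2iτ)|/2` on `[0,π]`. So
`∫ sin τ p = (1/2) ∫ |1-e^(-2iτ)| p ≥ (1/2) |∫ (1-e^(-2iτ)) p| = (π/2) |1-w|`. -/
def S_LOWP : Prop := ∀ w : ℂ, ‖w‖ < 1 →
  (∀ τ : ℝ, 0 < ((1 + w * Complex.exp (2 * τ * Complex.I)) /
        (1 - w * Complex.exp (2 * τ * Complex.I))).re) ∧
  Real.pi / 2 * ‖1 - w‖ ≤ ∫ τ in (0 : ℝ)..Real.pi, Real.sin τ *
      ((1 + w * Complex.exp (2 * τ * Complex.I)) /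
        (1 - w * Complex.exp (2 * τ * Complex.I))).re

/-- LOW (hypotheses `S_LOWI`, `S_LOWP`). Proof: in `S_LOWI` the real part is positive and
`e^(-aτ) ≥ e^(-aπ)`, so with `S_LOWP` (`w = z²`) the left side is at least
`(4a/π) e^(-aπ)/(1+e^(-aπ)) (π/2) |1-z²| = a (1-λ) |1-z²|`, as
`1 - tanh(πa/2) = 2e^(-aπ)/(1+e^(-aπ))`. -/
def S_LOW : Prop := ∀ a : ℝ, 0 < a → 0 < 1 - lam a ∧ ∀ z : ℂ, ‖z‖ < 1 →
  a * (1 - lam a) * ‖1 - z ^ 2‖ ≤ ((1 - z ^ 2) * hd a z).re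

/-- INJ (hypotheses `S_D1`, `S_LOW`). Proof: `T(s) = (e^(2s)-1)/(e^(2s)+1)` (`= tanh s`) maps the
strip `|Im s| < π/4` onto the disc (inverse `s = (1/2) Log((1+z)/(1-z))`), `T' = 1 - T²`. For
`z = T(s)`, `w = T(t)`, `s ≠ t`, the segment from `t` to `s` is in the strip and
`Re (conj(s-t) (h(z)-h(w))) = |s-t|² ∫_0^1 Re((1-T²) h'(T)) > 0` (mean value theorem as in
`mean_val` of `Pool/Agent/H712R2/MA/H1.lean`). -/
def S_INJ : Prop := ∀ a : ℝ, 0 < a → ∀ z w : ℂ, ‖z‖ < 1 → ‖w‖ < 1 → ha a z = ha a w → z = w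

/-- ETA (hypotheses `S_D1`, `S_RE`, `S_LOW`, `S_INJ`). Model: `Pool/Agent/H712R2/MA/H2.lean`.
`h' ≠ 0` and `|h'| ≥ a(1-λ)` by `S_LOW` (`|(1-z²)h'| ≥ Re ≥ a(1-λ)|1-z²|`, `1-z² ≠ 0`);
`HasStrictDerivAt.map_nhds_eq` gives that `h` is open, hence `η` is continuous on the lens
(`η(h(U)) = U`), derivative by `HasDerivAt.of_local_left_inverse`; level sets are images of closed
discs; the lens has `c0 = π √(1+a²)/(4a)`, `C = π a/2`, `B = 1/(a(1-λ))`. -/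
def S_ETA : Prop := ∀ a : ℝ, 0 < a →
  IsOpen (WW a) ∧
  (∀ p ∈ WW a, ‖eta a p‖ < 1 ∧ ha a (eta a p) = p) ∧
  (∀ z : ℂ, ‖z‖ < 1 → ha a z ∈ WW a ∧ eta a (ha a z) = z) ∧
  (∀ p, p ∉ WW a → eta a p = 1) ∧
  (∀ p ∈ WW a, hd a (eta a p) ≠ 0 ∧ HasDerivAt (eta a) (1 / hd a (eta a p)) p) ∧
  (∀ p ∈ WW a, |p.re| < lam a) ∧ (0 < lam a ∧ lam a < 1) ∧
  (∀ p ∈ WW a, -p ∈ WW a ∧ eta a (-p) = - eta a p) ∧
  Measurable (eta a) ∧ Measurable (ee a) ∧ Continuous (fun p => ‖eta a p‖) ∧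
  (∀ p, ‖ee a p‖ = ‖eta a p‖) ∧ (∀ p, p ∉ WW a → ee a p = 1) ∧
  ∃ L : Lens, L.W = WW a ∧ L.e = ee a

/-- SL (hypotheses `S_D1`, `S_LOW`, `S_ETA`): derivatives along vertical lines. With
`z = η(x+it)`, `dz/dt = i/h'(z)`.
(1) model: `S_H4` last clause, `Pool/Agent/H712R2/MA/H4.lean`: `|gf|² = |z|^(2m)`,
`d/dt |z|^(2m) = 2m |z|^(2m-2) Re(conj z · i/h') = 2m |z|^(2m-2) Im(z h')/|h'|²`, and
`af = m² |z|^(2m-2)/|h'|²`.
(2) `d/dt G(z) = G'(z) i/h'(z)`. By `S_D1` and `G = z h'`, for `z ≠ 0` this is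
`(i/G) z G' = a + (4a/π) i/((1-z²) h')`; for `z = 0` it is `i G'(0)/h'(0) = i`, the same value
(`G'(0) = h'(0) = (4a/π)/(1+ia)`). So `dP/dt = (4a/π) Re (1/((1-z²) h')) > 0` by `S_LOW`. -/
def S_SL : Prop := ∀ a : ℝ, 0 < a →
  (∀ L : Lens, L.W = WW a → L.e = ee a → ∀ m : ℕ, 1 ≤ m → ∀ x y : ℝ, (⟨x, y⟩ : ℂ) ∈ WW a →
    HasDerivAt (fun t : ℝ => ‖gf L m ⟨x, t⟩‖ ^ 2) (2 / m * af L m ⟨x, y⟩ * PP a ⟨x, y⟩) y ∧
    (eta a ⟨x, y⟩ ≠ 0 → 0 < af L m ⟨x, y⟩)) ∧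
  (∀ x y : ℝ, (⟨x, y⟩ : ℂ) ∈ WW a → ∃ d : ℝ, 0 < d ∧ HasDerivAt (fun t : ℝ => PP a ⟨x, t⟩) d y)

/-- CIRC (hypothesis `S_D1`). Proof: if `z2 = 0` then `z = 0`. Let `r = |z2| > 0`; on `|z| = r`,
`z = r e^(iθ)`, put `P(θ) = Im G(r e^(iθ))`, `dG/dθ = i z G'`. By the last clause of `S_D1`
`(e^(-aθ) P)' = (4a/π) e^(-aθ) Re(z/(1-z²))` with `Re(z/(1-z²)) = cos θ · r(1-r²)/|1-z²|²`, and
`P(θ+π) = -P(θ)` (`G` is odd). Changing `z, z2` to `-z, -z2` let `z2 = r e^(iθ2)`, `|θ2| ≤ π/2`. As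
`e^(-aθ)P` is strictly increasing on `[-π/2,π/2]` and `P(-π/2) = -P(π/2)`, we have
`P(π/2) > 0 > P(-π/2)`; so `|θ2| < π/2`, `P < 0` on `[-π/2,θ2)`, `P > 0` on `(θ2,π/2]`, hence
`P < 0` on `(θ2-π,θ2)` and `P > 0` on `(θ2,θ2+π)`. As `(Re h(r e^(iθ)))' = Re(i z h') = -P`, the
function `Re h` on the circle has its unique maximum at `z2`. By the maximum principle (for
`exp h`, which is not constant: `h' ≠ 0` at `0`) `Re h(z) < Re h(z2)` for `|z| < r` too. -/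
def S_CIRC : Prop := ∀ a : ℝ, 0 < a → ∀ z2 z : ℂ, ‖z2‖ < 1 → (ga a z2).im = 0 → ‖z‖ ≤ ‖z2‖ →
  (ha a z).re = (ha a z2).re → z = z2

/-- VC (hypotheses `S_D1`, `S_CIRC`, `S_ETA`, `S_SL`): vertical slices of the lens are intervals.
Proof: suppose `y < y'` are in the slice `Y = {t : x+it ∈ W}` (open, bounded) and some point
between is not. Let `J1 ∋ y`, `J2 ∋ y'` be their components, disjoint open intervals. On each `J`
the continuous function `t ↦ |η(x+it)|` is `< 1` inside and `1` at the end points, so it has a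
minimum inside, and there `P = 0` by `S_SL` (1) (`m = 1`, a local minimum of `|η|²`; if `η = 0`,
`P = Im G(0) = 0`). Let `z1 ≠ z2` be the values of `η` at the two minima (`h(z1) ≠ h(z2)`);
`Re h(z1) = Re h(z2) = x`; one of them has the larger modulus: `S_CIRC` gives `z1 = z2`,
contradiction. -/
def S_VC : Prop := ∀ a : ℝ, 0 < a → ∀ x y y' t : ℝ, (⟨x, y⟩ : ℂ) ∈ WW a → (⟨x, y'⟩ : ℂ) ∈ WW a →
  y ≤ t → t ≤ y' → (⟨x, t⟩ : ℂ) ∈ WW a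

/-- MON (hypotheses `S_ETA`, `S_SL`, `S_VC`): on a slice (an interval) `P` is strictly increasing
by `S_SL` (2), which gives the second clause. By `S_SL` (1) `|η|^(2m)` is strictly increasing where
`P > 0` and strictly decreasing where `P < 0` (`P ≠ 0` implies `η ≠ 0`, so `af > 0`); `1 ∓ x > 0`
as `|x| < λ < 1`. So `FF` is negative and strictly increasing where `P < 0`, positive and strictly
increasing where `P > 0`. -/
def S_MON : Prop := ∀ a : ℝ, 0 < a →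
  (∀ m : ℕ, 1 ≤ m → ∀ x y y' : ℝ, (⟨x, y⟩ : ℂ) ∈ WW a → (⟨x, y'⟩ : ℂ) ∈ WW a →
    PP a ⟨x, y⟩ ≠ 0 → PP a ⟨x, y'⟩ ≠ 0 → y < y' → FF a m ⟨x, y⟩ < FF a m ⟨x, y'⟩) ∧
  (∀ x : ℝ, {y : ℝ | (⟨x, y⟩ : ℂ) ∈ WW a ∧ PP a ⟨x, y⟩ = 0}.Subsingleton)

/-- QQ (hypotheses `S_D1`, `S_ARG`, `S_ETA`): bounds by the last two clauses of `S_ARG` at
`z = η(p)`, `Re h(η(p)) = Re p`. Measurability as `measurable_qq` in
`Pool/Agent/H712R2/MA/E.lean`. -/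
def S_QQ : Prop := ∀ a : ℝ, 0 < a → Measurable (qa a) ∧ ∀ p, 0 ≤ qa a p ∧ qa a p ≤ 1

/-- CONC (hypotheses `S_D1`, `S_ARG`, `S_RE`, `S_ETA`, `S_QQ`). Model:
`Pool/Agent/H712R2/MA/H5.lean` word for word: the change of variables `p = h(z)` gives
`∫ af φ(p) = ∫_D m² |z|^(2m-2) φ(h(z))`, in polar coordinates
`m² ∫_0^1 r^(2m-1) ∫_0^(2π) φ(h(r e^(iθ)))`. Pointwise convergence: for `sin θ > 0`,
`z = r e^(iθ)`, `r → 1`: `arg((1+z)/(1-z)) → π/2`, so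
`P = a((2/π)arg - Re h) ≥ a((2/π)arg - λ) > 0` eventually and
`1 - q = (1-(2/π)arg)/(1-Re h) ≤ (1-(2/π)arg)/(1-λ) → 0`; for `sin θ < 0` by `z ↦ -z`. -/
def S_CONC : Prop := ∀ a : ℝ, 0 < a → ∀ L : Lens, L.W = WW a → L.e = ee a →
  (∀ m : ℕ, 1 ≤ m → ∫⁻ p, ENNReal.ofReal (af L m p) = ENNReal.ofReal (m * Real.pi)) ∧
  Tendsto (fun m : ℕ => (∫⁻ p, ENNReal.ofReal (af L m p * (1 - qa a p))) / (m : ℝ≥0∞))
    atTop (𝓝 0)

/-! ## B. Real side and assembly of the Funk volume bound -/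

/-- E (hypothesis `H712MA.S_F`). Model: `Pool/Agent/H712R2/MA/E.lean`, the same proof for an
abstract lens and an abstract `q`. -/
def S_E : Prop := ∀ (L : Lens) (q : ℂ → ℝ), Measurable q → (∀ p, 0 ≤ q p ∧ q p ≤ 1) →
  Measurable L.e →
  (∀ m : ℕ, 1 ≤ m → ∫⁻ p, ENNReal.ofReal (af L m p) = ENNReal.ofReal (m * Real.pi)) →
  ∀ (κ : Type) [Fintype κ] (r : ℕ) (m : ℕ), 1 ≤ m → ∀ (l : κ → Fin (r + 1) → ℝ),
    ∫⁻ z in {z : E2 (r + 1) | VV L m l z < 1}, ENNReal.ofReal (DS l (fun k => af L m (pk (l k) z))) ≤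
      (∫⁻ z in {z : E2 (r + 1) | VV L m l z < 1},
        ENNReal.ofReal (DS l (fun k => q (pk (l k) z) * af L m (pk (l k) z)))) +
      ((Fintype.card κ : ℝ≥0∞) ^ (r + 1) * ((r + 1 : ℕ) : ℝ≥0∞)) *
        (ENNReal.ofReal (m * Real.pi) ^ r * ∫⁻ p, ENNReal.ofReal (af L m p * (1 - q p)))

/-- R1 (hypotheses `S_ETA`, `S_SL`, `S_MON`, `S_QQ`, `H712MA.S_A3`). Model:
`Pool/Agent/H712R2/MA/R1.lean`, with the map `T(u) = Σ_k m FF a m (l_k(x) + i l_k(u)) • l_k` on the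
good set `GU = {u : V(x,u) < 1, PP a (pk (l k) (x,u)) ≠ 0 for all k with l_k ≠ 0}` (the complement in
`{V<1}` is null by the second clause of `S_MON`: a finite union of hyperplanes `l_k(u) = y_k`).
Injective on `GU` by `S_MON`; derivative `Σ_k 2a q af · l_k ⊗ l_k` by `S_SL` (1) (the sign of `P` is
locally constant, `P` being continuous on slices); `T(GU) ⊆ m • PolA l x`: with
`t = l_k(x) ∈ (-1,1)`, for `|l_k(w)| ≤ 1`: `(l_k(w)-t)/(1-t) ≤ 1`, `-(l_k(w)-t)/(1+t) ≤ 1`, so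
`(w-x)·(T/m) ≤ Σ |η|^(2m) < 1`. -/
def S_R1 : Prop := ∀ a : ℝ, 0 < a → ∀ L : Lens, L.W = WW a → L.e = ee a →
  ∀ (κ : Type) [Fintype κ] (n : ℕ) (m : ℕ), 1 ≤ m → ∀ (l : κ → Fin n → ℝ), Spans l →
    ∀ x : Fin n → ℝ,
    ∫⁻ u in {u : Fin n → ℝ | VV L m l (x, u) < 1},
        ENNReal.ofReal (DS l (fun k => 2 * a * qa a (pk (l k) (x, u)) * af L m (pk (l k) (x, u)))) ≤
      (n.factorial : ℝ≥0∞) * (m : ℝ≥0∞) ^ n * volume (PolA l x)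

/-- R2 (hypotheses `S_R1`, `S_ETA`, `S_QQ`). Model: `Pool/Agent/H712R2/MA/R2.lean`. If
`V(x,u) < 1` all `pk (l k) (x,u)` are in the lens, so `|l_k(x)| < λ`. (No measurability of
`x ↦ volume (PolA l x)` is needed: `lintegral_mono`, `lintegral_const_mul'`.) -/
def S_R2 : Prop := ∀ a : ℝ, 0 < a → ∀ L : Lens, L.W = WW a → L.e = ee a →
  ∀ (κ : Type) [Fintype κ] (n : ℕ) (m : ℕ), 1 ≤ m → ∀ (l : κ → Fin n → ℝ), Spans l →
    ∫⁻ z in {z : E2 n | VV L m l z < 1},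
        ENNReal.ofReal (DS l (fun k => 2 * a * qa a (pk (l k) z) * af L m (pk (l k) z))) ≤
      (n.factorial : ℝ≥0∞) * (m : ℝ≥0∞) ^ n *
        ∫⁻ x in {x : Fin n → ℝ | ∀ k, |l k ⬝ᵥ x| ≤ lam a}, volume (PolA l x)

/-- FUNK (hypotheses `S_ETA`, `S_QQ`, `S_CONC`, `S_E`, `S_R2`, `H712MA.S_C6`, `H712MA.S_S`). Model:
`Pool/Agent/H712R2/MA/Z.lean` word for word, with `4/π` replaced by `2a`:
`(v0 m π)^n ≤ ∫_{V<1} DS(af) ≤ ∫_{V<1} DS(q af) + error`, `(2a)^n DS(q af) = DS(2a q af)`, divide by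
`m^n`, `m → ∞`, `v0 → 1`. (`n = 0`: both sides are `1`.) -/
def S_FUNK : Prop := ∀ (κ : Type) [Fintype κ] (n : ℕ) (l : κ → Fin n → ℝ), Spans l →
  ∀ a : ℝ, 0 < a → ENNReal.ofReal ((2 * Real.pi * a) ^ n / n.factorial) ≤
    ∫⁻ x in {x : Fin n → ℝ | ∀ k, |l k ⬝ᵥ x| ≤ lam a}, volume (PolA l x)

/-! ## C. Flags of polytopes -/

/-- HREP (no hypotheses). Proof: `P = conv S`, `0 ∈ int P` by symmetry. The polar
`Q = {y : ⟨v,y⟩ ≤ 1, v ∈ S}` is convex, closed and bounded (a ball is in `P`). Its extreme points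
are finitely many: an extreme point `y` is determined by `A(y) = {v ∈ S : ⟨v,y⟩ = 1}` (if
`A(y) = A(y')`, `y ≠ y'`, then `y ± t(y'-y) ∈ Q` for small `t`). Krein-Milman: `Q` is the (closed)
convex hull of its finitely many extreme points `l_k`. `P = {x : ⟨y,x⟩ ≤ 1 for all y ∈ Q}`
(Hahn-Banach), which is `{x : ⟨l_k,x⟩ ≤ 1 for all k}`. By `P = -P` the same with absolute values.
`Spans`: otherwise some `v ≠ 0` has `l_k(v) = 0` for all `k` and `P` is unbounded. -/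
def S_HREP : Prop := ∀ (d : ℕ) (S : Finset (ED d)),
  (interior (convexHull ℝ (S : Set (ED d)))).Nonempty →
  (∀ x ∈ convexHull ℝ (S : Set (ED d)), -x ∈ convexHull ℝ (S : Set (ED d))) →
  ∃ (κ : Type) (_ : Fintype κ) (l : κ → Fin d → ℝ), Spans l ∧
    convexHull ℝ (S : Set (ED d)) = Fc l ∅ ∧
    ∀ x : Fin d → ℝ, (∀ k, l k ⬝ᵥ x ≤ 1) ↔ (∀ k, |l k ⬝ᵥ x| ≤ 1)

/-- REL (no hypotheses). Proof: for each `k` for which some `y ∈ F` has `l_k(y) < 1` choose such a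
`y_k`; take the average of these finitely many points (any point of `F` if there are none). -/
def S_REL : Prop := ∀ (d : ℕ) (κ : Type) [Fintype κ] (l : κ → Fin d → ℝ) (F : Set (ED d)),
  F.Nonempty → Convex ℝ F → F ⊆ Fc l ∅ → IsRel l F (rel l F)

/-- FACET (no hypotheses): a boundary point of a face is on a facet of it. Proof: `F = Fc l I`,
`V = vectorSpan F`. Let `J = {k : l_k(x) = 1, l_k(b) < 1}`, not empty. The constraints active at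
`b` are equal to `1` on `F`. `F` near `x` is `x + C` near `x`, `C = {v ∈ V : l_k(v) ≤ 0, k ∈ J}`
(constraints not active at `x` stay inactive; those with `l_k(b) = 1` are constant on `F` and
vanish on `V`; moreover every `v ∈ V` keeps them; `V` is also `{v : l_k(v) = 0 for all k with
l_k(b) = 1}`: such a `v` has `b ± tv ∈ F` for small `t`). Let `J' ⊆ J` be minimal with
`C = {v ∈ V : l_k(v) ≤ 0, k ∈ J'}`; `J'` is not empty since `x - b ∈ V` is not in `C`. Take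
`k ∈ J'`. By minimality there is `v0 ∈ V` with `l_k(v0) > 0`, `l_j(v0) ≤ 0` for `j ∈ J'`, `j ≠ k`;
and `v1 = b - x` has `l_j(v1) < 0` for all `j ∈ J`. A convex combination `v = (1-t)v0 + t v1`,
`0 < t < 1`, has `l_k(v) = 0`, `l_j(v) < 0` for the other `j ∈ J'`. So all
`w ∈ V ∩ ker l_k` near `v` are in `C`, and `x + s w ∈ Fc l (insert k I)` for small `s > 0` (`s`
uniform for `w` in a bounded set). Hence `V ∩ ker l_k ⊆ vectorSpan (Fc l (insert k I))`, and `⊇` is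
clear; `l_k` is not zero on `V`, so the dimension is `dim V - 1`. -/
def S_FACET : Prop := ∀ (d : ℕ) (κ : Type) [Fintype κ] (l : κ → Fin d → ℝ) (I : Set κ) (b x : ED d),
  IsRel l (Fc l I) b → x ∈ Fc l I → (∃ k, l k ⬝ᵥ x.ofLp = 1 ∧ l k ⬝ᵥ b.ofLp < 1) →
  ∃ k, l k ⬝ᵥ x.ofLp = 1 ∧ l k ⬝ᵥ b.ofLp < 1 ∧
    Module.finrank ℝ (vectorSpan ℝ (Fc l (insert k I))) + 1 =
      Module.finrank ℝ (vectorSpan ℝ (Fc l I))

/-- COVER (hypotheses `S_REL`, `S_FACET`): the flag simplices cover the polytope. Proof: every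
nonempty `Fc l I` with `I` nonempty is exposed (functional `Σ_{k∈I} l_k`); `P = Fc l ∅` has
dimension `d` (`0` is an interior point). By induction on `j`: if `F = Fc l I` has dimension `j` and
`x ∈ F` there are faces `F_0 ⊆ … ⊆ F_j = F` of the form `Fc l I_i`, `dim F_i = i`, with
`x ∈ conv(rel F_0, …, rel F_j)`. `j = 0`: `F` is a point. `j ≥ 1`, `b = rel F`: if `x ≠ b` the ray
from `b` through `x` leaves the compact set `F` at `x' = b + t(x-b)`, `t ≥ 1`; if `x = b` take any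
ray from `b` in `vectorSpan F ≠ 0` (`b` is a relative interior point, `b ± s v ∈ F` for small `s`).
At `x'` a constraint with `l_k(b) < 1` is active (otherwise one could go on). By `S_FACET` there is
a face `G = Fc l (insert k I)` of dimension `j-1` with `x' ∈ G`; induction for `x'`, and `x` is a
convex combination of `b` and `x'`. For `F = P` (dimension `d`) use the point `0` instead of
`rel P` (`0` is also `IsRel`), which gives `x = Σ_{i<d} s_i rel(F_i) + s_d 0`, and take `f = (F_i)`,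
`i < d`, each with a nonempty index set (the first step from `P` inserts one). -/
def S_COVER : Prop := ∀ (d : ℕ) (κ : Type) [Fintype κ] (l : κ → Fin d → ℝ),
  IsCompact (Fc l ∅ : Set (ED d)) → ∀ x ∈ (Fc l ∅ : Set (ED d)),
  ∃ f : Fin d → Set (ED d), IsFl (Fc l ∅) f ∧
    ∃ s : Fin d → ℝ, (∀ i, 0 ≤ s i) ∧ ∑ i, s i ≤ 1 ∧ x = ∑ i, s i • rel l (f i)

/-- STAR (hypothesis `S_REL`). Proof: exposed sets are convex subsets of `P = Fc l ∅`, so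
`b_i = rel (f i)` is `IsRel`; if `i ≤ j` and `l_k(b_j) = 1` then `l_k = 1` on `f j ⊇ f i ∋ b_i`. -/
def S_STAR : Prop := ∀ (d : ℕ) (κ : Type) [Fintype κ] (l : κ → Fin d → ℝ) (f : Fin d → Set (ED d)),
  IsFl (Fc l ∅) f → Star l (fun i => (rel l (f i)).ofLp)

/-! ## D. Volume of the polars over one flag simplex -/

/-- SIMPX (no hypotheses). Proof: `σ_i = 1 - Σ_{j≤i} s_j`; Abel summation. -/
def S_SIMPX : Prop := ∀ (n : ℕ) (b : Fin n → Fin n → ℝ) (R : ℝ), 0 ≤ R →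
  ∀ x ∈ Simp b R, ∃ σ ∈ Ord n R, x = pt b σ

/-- BOX1 (no hypotheses): the box `|σ'_i - σ_i| ≤ c σ_i` is in the polytope. Proof: fix `k`, put
`u_j = 1 - l_k(Bx b j) ≥ 0` for `0 ≤ j ≤ n` (`u_n = 1`). By `Star` there is `j0 ≤ n` with
`u_j = 0` iff `j < j0`. `1 - l_k(pt b σ') = u_0 + Σ_i σ'_i (u_(i+1) - u_i)`. For `σ` itself this is
`Σ_{j=0}^n s_j u_j`, `s_0 = 1-σ_0`, `s_j = σ_(j-1) - σ_j`, `s_n = σ_(n-1)`, all `≥ 0`, hence at
least `μ σ_(j0-1)` (`μ` if `j0 = 0`), `μ` = the least positive value of all `u_j` (all `k`). Since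
`u_(i+1) - u_i = 0` for `i < j0-1` and `σ` is antitone, the change from `σ` to `σ'` is at most
`n c M σ_(j0-1)` (`n c M` if `j0 = 0`), `M` a bound of all `|u_(i+1)-u_i|`. Take
`c = μ/(nM+μ+1) < 1` or smaller. (No `κ` or `n = 0`: any `c`.) -/
def S_BOX1 : Prop := ∀ (n : ℕ) (κ : Type) [Fintype κ] (l : κ → Fin n → ℝ) (b : Fin n → Fin n → ℝ),
  Star l b → ∃ c : ℝ, 0 < c ∧ c < 1 ∧ ∀ σ : Fin n → ℝ, Antitone σ → (∀ i, 0 < σ i ∧ σ i ≤ 1) →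
    ∀ σ' : Fin n → ℝ, (∀ i, |σ' i - σ i| ≤ c * σ i) → ∀ k, l k ⬝ᵥ pt b σ' ≤ 1

/-- BOX2 (no hypotheses): for widely separated `σ` the box `∏ [ε σ_i, M σ_i]` is in the polytope.
Proof: notation of BOX1. `1 - l_k(pt b σ') = Σ_{j≥j0} s'_j u_j`, `s'_0 = 1-σ'_0`,
`s'_j = σ'_(j-1) - σ'_j`, `s'_n = σ'_(n-1)`. If `j0 ≥ 1`:
`s'_(j0) ≥ (ε - Mη) σ_(j0-1)`, the other `s'_j ≥ -M σ_j ≥ -Mη σ_(j0-1)` (`j0 < j < n`), `s'_n ≥ 0`,
so the sum is `≥ (μ(ε-Mη) - n U M η) σ_(j0-1) ≥ 0`, `U` a bound of all `u_j`, `η` small. If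
`j0 = 0` the same with `s'_0 ≥ 1-Mη`. -/
def S_BOX2 : Prop := ∀ (n : ℕ) (κ : Type) [Fintype κ] (l : κ → Fin n → ℝ) (b : Fin n → Fin n → ℝ),
  Star l b → ∀ ε M : ℝ, 0 < ε → ε < 1 → 1 < M → ∃ η : ℝ, 0 < η ∧ η < 1 ∧
    ∀ σ : Fin n → ℝ, (∀ i, 0 < σ i) → (∀ i : Fin n, (i : ℕ) = 0 → σ i ≤ η) →
      (∀ i j : Fin n, (j : ℕ) = i + 1 → σ j ≤ η * σ i) →
      ∀ σ' : Fin n → ℝ, (∀ i, ε * σ i ≤ σ' i ∧ σ' i ≤ M * σ i) → ∀ k, l k ⬝ᵥ pt b σ' ≤ 1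

/-- POLB (no hypotheses): volume of the polar of a box. Proof: if the determinant is `0` nothing is
to show. Otherwise `y ↦ (c_i ⬝ᵥ y)_i` maps the set onto
`{t : Σ_i max (p_i t_i, -q_i t_i) ≤ 1}`, the union of `2^n` simplices of volume
`∏ (1/p_i or 1/q_i)/n!` (or: `n!·vol = ∫ exp(-Σ max) = ∏ (1/p_i + 1/q_i)`). -/
def S_POLB : Prop := ∀ (n : ℕ) (c : Fin n → Fin n → ℝ) (p q : Fin n → ℝ),
  (∀ i, 0 < p i) → (∀ i, 0 < q i) →
  ENNReal.ofReal |Matrix.det (Matrix.of c)| *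
    volume {y : Fin n → ℝ | ∀ τ : Fin n → ℝ, (∀ i, - q i ≤ τ i ∧ τ i ≤ p i) →
      (∑ i, τ i • c i) ⬝ᵥ y ≤ 1} ≤
  ENNReal.ofReal ((∏ i, (1 / p i + 1 / q i)) / n.factorial)

/-- CV (no hypotheses): change of variables `σ_i = e^(-Rρ_i)`, `x = pt b σ`. If `Dx b = 0` the
image is null (contained in a translate of a proper subspace); otherwise
`lintegral_image_eq_lintegral_abs_det_fderiv_mul` (any `F`), on `Inc n` (closed, measurable). -/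
def S_CV : Prop := ∀ (n : ℕ) (b : Fin n → Fin n → ℝ) (R : ℝ), 0 < R →
  ∀ F : (Fin n → ℝ) → ℝ≥0∞, ∫⁻ x in pt b '' Ord n R, F x ≤
    ∫⁻ ρ in Inc n, ENNReal.ofReal (Dx b * (R ^ n * ∏ i, Real.exp (-(R * ρ i)))) *
      F (pt b (fun i => Real.exp (-(R * ρ i))))

/-- ORD (no hypotheses): the `n!` coordinate permutations of `{0 ≤ ρ_0 < … < ρ_(n-1) ≤ 1}` are
disjoint subsets of the unit cube of equal volume, and `{ρ_i = ρ_j}` is null. -/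
def S_ORD : Prop := ∀ n : ℕ, volume (Inc n) ≤ ENNReal.ofReal (1 / n.factorial)

/-- SEP (no hypotheses): the non separated part of `Inc n` is in the union of the `n` sets
`{ρ ∈ [0,1]^n : ρ_0 < t}`, `{ρ ∈ [0,1]^n : 0 ≤ ρ_j - ρ_i < t}` (`j = i+1`), each of volume `≤ t`
(Fubini in the coordinate `ρ_0`, `ρ_j`, which is in an interval of length `t`). -/
def S_SEP : Prop := ∀ (n : ℕ) (t : ℝ), 0 < t →
  volume {ρ : Fin n → ℝ | ρ ∈ Inc n ∧ ((∃ i : Fin n, (i : ℕ) = 0 ∧ ρ i < t) ∨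
    ∃ i j : Fin n, (j : ℕ) = i + 1 ∧ ρ j - ρ i < t)} ≤ ENNReal.ofReal (n * t)

/-- PHI (hypotheses `S_BOX1`, `S_BOX2`, `S_POLB`): pointwise bounds. Proof: if the box
`∏ [σ_i - q_i, σ_i + p_i]` around `σ` is mapped by `pt b` into `{l ≤ 1}` then `PolB l (pt b σ)` is
in the set of `S_POLB` with `c = cx b` (`pt b (σ+τ) - pt b σ = Σ τ_i c_i`), so
`Dx b · ∏ σ_i · vol (PolB l (pt b σ)) ≤ (1/n!) ∏ (σ_i/p_i + σ_i/q_i)`. First clause: `S_BOX1`,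
`p_i = q_i = c σ_i`, `C = (2/c)^n/n!`. Second: choose `ε, M` with
`(1/(M-1) + 1/(1-ε))^n ≤ 1 + ε0`, `η` of `S_BOX2`, `p_i = (M-1)σ_i`, `q_i = (1-ε)σ_i`. -/
def S_PHI : Prop := ∀ (n : ℕ) (κ : Type) [Fintype κ] (l : κ → Fin n → ℝ) (b : Fin n → Fin n → ℝ),
  Star l b →
  (∃ C : ℝ, 0 < C ∧ ∀ σ : Fin n → ℝ, Antitone σ → (∀ i, 0 < σ i ∧ σ i ≤ 1) →
    ENNReal.ofReal (Dx b * ∏ i, σ i) * volume (PolB l (pt b σ)) ≤ ENNReal.ofReal C) ∧
  ∀ ε0 : ℝ, 0 < ε0 → ∃ η : ℝ, 0 < η ∧ η < 1 ∧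
    ∀ σ : Fin n → ℝ, (∀ i, 0 < σ i) → (∀ i : Fin n, (i : ℕ) = 0 → σ i ≤ η) →
      (∀ i j : Fin n, (j : ℕ) = i + 1 → σ j ≤ η * σ i) →
      ENNReal.ofReal (Dx b * ∏ i, σ i) * volume (PolB l (pt b σ)) ≤
        ENNReal.ofReal ((1 + ε0) / n.factorial)

/-- VOL (hypotheses `S_PHI`, `S_CV`, `S_ORD`, `S_SEP`). Proof: by `S_CV` the integral is at most
`R^n ∫_{Inc n} Φ`, `Φ(ρ) = Dx b ∏ e^(-Rρ_i) vol (PolB l (pt b e^(-Rρ)))`. By `S_PHI` `Φ ≤ C`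
everywhere on `Inc n`, and where `ρ_0 ≥ L/R` and `ρ_(i+1) - ρ_i ≥ L/R`, `L = log(1/η)`, we have
`Φ ≤ (1+ε0)/n!`; the rest of `Inc n` has volume at most `n L/R` by `S_SEP`. So the integral is at
most `R^n ((1+ε0)/(n!)² + C n L/R)` (`S_ORD`). -/
def S_VOL : Prop := ∀ (n : ℕ) (κ : Type) [Fintype κ] (l : κ → Fin n → ℝ) (b : Fin n → Fin n → ℝ),
  Star l b → ∀ ε : ℝ, 0 < ε → ∃ R0 : ℝ, 0 < R0 ∧ ∀ R : ℝ, R0 ≤ R →
    ∫⁻ x in pt b '' Ord n R, volume (PolB l x) ≤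
      ENNReal.ofReal ((1 / (n.factorial : ℝ) ^ 2 + ε) * R ^ n)

/-- MAIN (leader; hypotheses `S_FUNK`, `S_HREP`, `S_COVER`, `S_STAR`, `S_SIMPX`, `S_VOL`). -/
def S_MAIN : Prop := ∀ (d : ℕ) (S : Finset (ED d)),
  (interior (convexHull ℝ (S : Set (ED d)))).Nonempty →
  (∀ x ∈ convexHull ℝ (S : Set (ED d)), -x ∈ convexHull ℝ (S : Set (ED d))) →
  (((2 ^ d * d.factorial : ℕ)) : ℕ∞) ≤
    {f : Fin d → Set (ED d) | IsFl (convexHull ℝ (S : Set (ED d))) f}.encard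

end Pool.Agent.Run7.h761.KF
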